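import Pool.Agent.helper47.Vis.Defs

set_option autoImplicit false

/-!
# MP_6b3417_co, part III.5: the gap lemma
-/

namespace Pool.Agent.helper95.Vis

open Pool.Agent.helper47.Vis

lemma seg_coords {z r : ℝ × ℝ} {w : ℤ × ℤ} (hr : r ∈ openSegment ℝ z (toR w)) :
    ∃ s : ℝ, 0 < s ∧ s < 1 ∧ r.1 - w.1 = s * (z.1 - w.1) ∧ r.2 - w.2 = s * (z.2 - w.2) := by
  obtain ⟨s, t, hs, ht, hst, hx⟩ := hr
  have hx1 : s * z.1 + t * (w.1 : ℝ) = r.1 := by
    have := congrArg Prod.fst hx; simpa using this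
  have hx2 : s * z.2 + t * (w.2 : ℝ) = r.2 := by
    have := congrArg Prod.snd hx; simpa using this
  have ht' : t = 1 - s := by linarith
  subst ht'
  exact ⟨s, hs, by linarith, by rw [← hx1]; ring, by rw [← hx2]; ring⟩

/-- Two blocked points in the same row force `z.2 ≤ M h² + 1`. -/
lemma two_blocked (z : ℝ × ℝ) (M h : ℕ) (b i i' : ℤ) (hb0 : 0 ≤ b) (hb1 : b ≤ 1) (hii : i ≠ i')
    (hi : 0 ≤ i) (hiM : i ≤ M) (hi' : 0 ≤ i') (hiM' : i' ≤ M) (hM : 5 ≤ M)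
    (hz : (M : ℝ) * h ^ 2 + 2 * M < z.2) (u u' : ℤ × ℤ)
    (hu : toR u ∈ openSegment ℝ z (toR (i, b))) (hu' : toR u' ∈ openSegment ℝ z (toR (i', b)))
    (huh : (u.2 : ℝ) ≤ h) (huh' : (u'.2 : ℝ) ≤ h) : False := by
  obtain ⟨s, hs0, hs1, h1, h2⟩ := seg_coords hu
  obtain ⟨s', hs0', hs1', h1', h2'⟩ := seg_coords hu'
  simp only [toR_fst, toR_snd] at h1 h2 h1' h2'
  have hbR : (b : ℝ) ≤ 1 := by exact_mod_cast hb1
  have hbR0 : (0 : ℝ) ≤ b := by exact_mod_cast hb0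
  have hMR : (5 : ℝ) ≤ M := by exact_mod_cast hM
  have hhR : (0 : ℝ) ≤ h := Nat.cast_nonneg h
  set Z : ℝ := z.2 - b with hZ
  have hZpos : (M : ℝ) * h ^ 2 < Z := by rw [hZ]; linarith
  have hZ0 : 0 < Z := lt_of_le_of_lt (by positivity) hZpos
  have hN : (((u.1 - i) * (u'.2 - b) - (u'.1 - i') * (u.2 - b) : ℤ) : ℝ) * Z
      = ((u.2 : ℝ) - b) * (u'.2 - b) * (i' - i) := by
    push_cast
    rw [h1, h2, h1', h2']
    ring
  have hk : 0 < (u.2 : ℝ) - b := by rw [h2]; positivity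
  have hk' : 0 < (u'.2 : ℝ) - b := by rw [h2']; positivity
  have hne : ((u.1 - i) * (u'.2 - b) - (u'.1 - i') * (u.2 - b) : ℤ) ≠ 0 := by
    intro h0
    rw [h0] at hN
    have hne' : ((i' : ℝ) - i) ≠ 0 := by
      rw [sub_ne_zero]
      exact fun hc => hii (by exact_mod_cast hc.symm)
    have : ((u.2 : ℝ) - b) * (u'.2 - b) * (i' - i) ≠ 0 := by positivity
    apply this
    rw [← hN]; simp
  have habs : (1 : ℝ) ≤ |(((u.1 - i) * (u'.2 - b) - (u'.1 - i') * (u.2 - b) : ℤ) : ℝ)| := by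
    rw [← Int.cast_abs]
    exact_mod_cast Int.one_le_abs hne
  have hle : Z ≤ |((u.2 : ℝ) - b) * (u'.2 - b) * (i' - i)| := by
    rw [← hN, abs_mul, abs_of_pos hZ0]
    nlinarith
  rw [abs_mul, abs_mul, abs_of_pos hk, abs_of_pos hk'] at hle
  have hi1 : |(i' : ℝ) - i| ≤ M := by
    have hiR : (0 : ℝ) ≤ i := by exact_mod_cast hi
    have hiR' : (0 : ℝ) ≤ i' := by exact_mod_cast hi'
    have hiMR : (i : ℝ) ≤ M := by exact_mod_cast hiM
    have hiMR' : (i' : ℝ) ≤ M := by exact_mod_cast hiM'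
    rw [abs_le]; constructor <;> linarith
  have hkh : (u.2 : ℝ) - b ≤ h := by linarith
  have hkh' : (u'.2 : ℝ) - b ≤ h := by linarith
  have : ((u.2 : ℝ) - b) * (u'.2 - b) * |(i' : ℝ) - i| ≤ h * h * M := by
    gcongr
  nlinarith

theorem gapLemma (P : Set (ℝ × ℝ)) (hfin : P.Finite) (hK : K5free P) (M h : ℕ) (hM : 5 ≤ M)
    (hh : M ≤ h) (hW : toR '' Box M ⊆ P) (y : ℝ × ℝ) (hy : y ∈ P)
    (hint : ∀ p ∈ P, p ≠ y → p ∈ Set.range toR)
    (hy2 : (M : ℝ) * h ^ 2 + 2 * M < y.2) :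
    ∃ z ∈ P, z ∈ convexHull ℝ (insert y (toR '' Box M)) ∧ (h : ℝ) < z.2 ∧
      z.2 ≤ (M : ℝ) * h ^ 2 + 2 * M := by
  have hMR : (5 : ℝ) ≤ M := by exact_mod_cast hM
  have hhR : (5 : ℝ) ≤ h := hMR.trans (by exact_mod_cast hh)
  have hbig : (h : ℝ) < M * h ^ 2 + 2 * M := by nlinarith
  set C := convexHull ℝ (insert y (toR '' Box M)) with hC
  have hCconv : Convex ℝ C := convex_convexHull ℝ _
  set S : Set (ℝ × ℝ) := {p | p ∈ P ∧ p ∈ C ∧ (h : ℝ) < p.2} with hS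
  have hSfin : S.Finite := hfin.subset fun p hp => hp.1
  have hyS : y ∈ S := ⟨hy, subset_convexHull ℝ _ (Set.mem_insert _ _), hbig.trans hy2⟩
  obtain ⟨z, hzS, hzmin⟩ := Set.exists_min_image S (fun p => p.2) hSfin ⟨y, hyS⟩
  refine ⟨z, hzS.1, hzS.2.1, hzS.2.2, ?_⟩
  by_contra hz
  push Not at hz
  have hzh : (h : ℝ) < z.2 := hzS.2.2
  -- blockers
  have hblock : ∀ i b : ℤ, 0 ≤ i → i ≤ M → 0 ≤ b → b ≤ 1 → ¬ Sees P z (toR (i, b)) →
      ∃ u : ℤ × ℤ, toR u ∈ openSegment ℝ z (toR (i, b)) ∧ (u.2 : ℝ) ≤ h := by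
    intro i b hi0 hiM hb0 hb1 hns
    have hbR : (b : ℝ) ≤ 1 := by exact_mod_cast hb1
    have hwz : (b : ℝ) < z.2 := by linarith
    have hne : z ≠ toR (i, b) := by
      intro h0
      rw [h0] at hwz
      simp at hwz
    simp only [Sees, not_and, not_forall, not_not] at hns
    obtain ⟨r, hrP, hr⟩ := hns hne
    obtain ⟨s, hs0, hs1, h1, h2⟩ := seg_coords hr
    simp only at h1 h2
    have hrz : r.2 < z.2 := by nlinarith
    have hwC : toR (i, b) ∈ C := by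
      refine subset_convexHull ℝ _ (Set.mem_insert_of_mem _ ⟨(i, b), ⟨hi0, hiM, hb0, ?_⟩, rfl⟩)
      simp only
      have : (5 : ℤ) ≤ M := by exact_mod_cast hM
      omega
    have hrC : r ∈ C := hCconv.openSegment_subset hzS.2.1 hwC hr
    have hrh : r.2 ≤ h := by
      by_contra hcon
      push Not at hcon
      have := hzmin r ⟨hrP, hrC, hcon⟩
      linarith
    have hry : r ≠ y := by
      rintro rfl
      have := hzmin r hyS
      linarith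
    obtain ⟨u, hu⟩ := hint r hrP hry
    refine ⟨u, by rwa [hu], ?_⟩
    rw [← toR_snd, hu]
    exact hrh
  have hrow : ∀ i i' b : ℤ, 0 ≤ i → i ≤ M → 0 ≤ i' → i' ≤ M → 0 ≤ b → b ≤ 1 → i ≠ i' →
      ¬ Sees P z (toR (i, b)) → Sees P z (toR (i', b)) := by
    intro i i' b hi hiM hi' hiM' hb0 hb1 hii hns
    by_contra hns'
    obtain ⟨u, hu, huh⟩ := hblock i b hi hiM hb0 hb1 hns
    obtain ⟨u', hu', huh'⟩ := hblock i' b hi' hiM' hb0 hb1 hns'
    exact two_blocked z M h b i i' hb0 hb1 hii hi hiM hi' hiM' hM hz u u' hu hu' huh huh'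
  have hMZ : (5 : ℤ) ≤ M := by exact_mod_cast hM
  -- visibility inside the window
  have hin : ∀ w w' : ℤ × ℤ, 0 ≤ w.2 → w.2 ≤ 1 → 0 ≤ w'.2 → w'.2 ≤ 1 →
      Int.gcd (w'.1 - w.1) (w'.2 - w.2) = 1 → Sees P (toR w) (toR w') := by
    intro w w' hw0 hw1 hw0' hw1' hg
    refine ⟨?_, ?_⟩
    · intro hab
      have := toR_injective hab
      subst this
      simp at hg
    · intro r hrP hr
      have hr2 : r.2 ≤ 1 := by
        obtain ⟨s, t, hs, ht, hst, hx⟩ := hr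
        have hx2 : s * (w.2 : ℝ) + t * (w'.2 : ℝ) = r.2 := by
          have := congrArg Prod.snd hx; simpa using this
        have a1 : (w.2 : ℝ) ≤ 1 := by exact_mod_cast hw1
        have a2 : (w'.2 : ℝ) ≤ 1 := by exact_mod_cast hw1'
        nlinarith
      have hry : r ≠ y := by
        rintro rfl
        linarith [hzmin r hyS]
      obtain ⟨u, hu⟩ := hint r hrP hry
      exact not_between_of_gcd_one w w' u hg (by rwa [hu])
  -- a free square gives a `K₅`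
  have hsq : ∀ i : ℤ, 0 ≤ i → i + 1 ≤ M → Sees P z (toR (i, 0)) → Sees P z (toR (i, 1)) →
      Sees P z (toR (i + 1, 0)) → Sees P z (toR (i + 1, 1)) → False := by
    intro i hi hiM h00 h01 h10 h11
    have hmem : ∀ a b : ℤ, 0 ≤ a → a ≤ M → 0 ≤ b → b ≤ 1 → toR (a, b) ∈ P := by
      intro a b ha haM hb0 hb1
      exact hW ⟨(a, b), ⟨ha, haM, hb0, by simp only; omega⟩, rfl⟩
    refine hK.elim5 hzS.1 (hmem i 0 hi (by omega) (by omega) (by omega))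
      (hmem i 1 hi (by omega) (by omega) (by omega))
      (hmem (i + 1) 0 (by omega) (by omega) (by omega) (by omega))
      (hmem (i + 1) 1 (by omega) (by omega) (by omega) (by omega))
      h00 h01 h10 h11 ?_ ?_ ?_ ?_ ?_ ?_ <;>
    · apply hin <;> simp
  have hex : ∃ i : ℤ, 0 ≤ i ∧ i + 1 ≤ M ∧ Sees P z (toR (i, 0)) ∧ Sees P z (toR (i, 1)) ∧
      Sees P z (toR (i + 1, 0)) ∧ Sees P z (toR (i + 1, 1)) := by
    by_contra hno
    push Not at hno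
    have hrow' : ∀ b : ℤ, 0 ≤ b → b ≤ 1 → ∃ c : ℤ, ∀ i : ℤ, 0 ≤ i → i ≤ M → i ≠ c →
        Sees P z (toR (i, b)) := by
      intro b hb0 hb1
      by_cases hall : ∀ i : ℤ, 0 ≤ i → i ≤ M → Sees P z (toR (i, b))
      · exact ⟨0, fun i h1 h2 _ => hall i h1 h2⟩
      · push Not at hall
        obtain ⟨c, hc0, hcM, hc⟩ := hall
        exact ⟨c, fun i h1 h2 h3 => hrow c i b hc0 hcM h1 h2 hb0 hb1 (Ne.symm h3) hc⟩
    obtain ⟨c, hc⟩ := hrow' 0 le_rfl (by norm_num)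
    obtain ⟨d, hd⟩ := hrow' 1 (by norm_num) le_rfl
    have key : ∃ i : ℤ, 0 ≤ i ∧ i + 1 ≤ 5 ∧ i ≠ c ∧ i + 1 ≠ c ∧ i ≠ d ∧ i + 1 ≠ d := by
      by_cases h0 : (0 : ℤ) = c ∨ (1 : ℤ) = c ∨ (0 : ℤ) = d ∨ (1 : ℤ) = d
      · by_cases h2 : (2 : ℤ) = c ∨ (3 : ℤ) = c ∨ (2 : ℤ) = d ∨ (3 : ℤ) = d
        · exact ⟨4, by omega⟩
        · exact ⟨2, by omega⟩
      · exact ⟨0, by omega⟩
    obtain ⟨i, hi0, hi5, h1, h2, h3, h4⟩ := key
    exact hno i hi0 (by omega) (hc i hi0 (by omega) h1) (hd i hi0 (by omega) h3)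
      (hc (i + 1) (by omega) (by omega) h2) (hd (i + 1) (by omega) (by omega) h4)
  obtain ⟨i, hi0, hiM, h1, h2, h3, h4⟩ := hex
  exact hsq i hi0 hiM h1 h2 h3 h4

end Pool.Agent.helper95.Vis
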